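import Pool.Agent.SGB.Stmts

set_option autoImplicit false

/-!
# Squad SGB, row CNT: counting the classes of an element of all `Z_{k_a h}`
-/

open Finset

namespace Pool.Agent.SGB.H39

universe u

open Pool.Agent.SGB

theorem cnt : CNTStmt.{u} := by
  classical
  intro H _ _ ι _ S T hST m k z D hm hD
  haveI : Fintype H := Fintype.ofFinite H
  have hcd : cd (⨅ a, S (k a)) = ((univ.filter fun x : H => x ∈ ⨅ a, S (k a)).card : ℝ) := by
    unfold cd
    rw [Nat.card_eq_fintype_card, Fintype.card_subtype]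
  have hsub : (univ.filter fun h : ι => ∀ a, z ∈ zz S T (k a) h) ⊆
      (univ.filter fun x : H => x ∈ ⨅ a, S (k a)).biUnion
        fun x => univ.filter fun h : ι => x ∈ S h ∧ z - x ∈ T h := by
    intro h hh
    rw [mem_filter] at hh
    have h1 : ∀ a, ∃ y ∈ S (k a) ⊓ S h, ∃ w ∈ S (k a) ⊓ T h, y + w = z := fun a =>
      AddSubgroup.mem_sup.1 (hh.2 a)
    choose y hy w hw hyw using h1
    have heq : ∀ a b, y a = y b := by
      intro a b
      have k1 : y a - y b ∈ S h := (S h).sub_mem (hy a).2 (hy b).2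
      have k2 : y a - y b ∈ T h := by
        have : y a - y b = w b - w a := by
          rw [sub_eq_sub_iff_add_eq_add, hyw a, add_comm, hyw b]
        rw [this]
        exact (T h).sub_mem (hw b).2 (hw a).2
      have k3 : y a - y b ∈ S h ⊓ T h := ⟨k1, k2⟩
      rw [hST h, AddSubgroup.mem_bot] at k3
      exact sub_eq_zero.1 k3
    rw [mem_biUnion]
    refine ⟨y ⟨0, hm⟩, ?_, ?_⟩
    · rw [mem_filter]
      refine ⟨mem_univ _, ?_⟩
      rw [AddSubgroup.mem_iInf]
      intro a
      rw [heq ⟨0, hm⟩ a]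
      exact (hy a).1
    · rw [mem_filter]
      refine ⟨mem_univ _, (hy _).2, ?_⟩
      have : z - y ⟨0, hm⟩ = w ⟨0, hm⟩ := by
        rw [← hyw ⟨0, hm⟩]; abel
      rw [this]
      exact (hw _).2
  have h1 : (univ.filter fun h : ι => ∀ a, z ∈ zz S T (k a) h).card ≤
      ∑ x ∈ univ.filter fun x : H => x ∈ ⨅ a, S (k a),
        (univ.filter fun h : ι => x ∈ S h ∧ z - x ∈ T h).card :=
    (card_le_card hsub).trans card_biUnion_le
  calc ((univ.filter fun h : ι => ∀ a, z ∈ zz S T (k a) h).card : ℝ)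
      ≤ ((∑ x ∈ univ.filter fun x : H => x ∈ ⨅ a, S (k a),
        (univ.filter fun h : ι => x ∈ S h ∧ z - x ∈ T h).card : ℕ) : ℝ) := by exact_mod_cast h1
    _ = ∑ x ∈ univ.filter fun x : H => x ∈ ⨅ a, S (k a),
        ((univ.filter fun h : ι => x ∈ S h ∧ z - x ∈ T h).card : ℝ) := by push_cast; rfl
    _ ≤ ∑ _x ∈ univ.filter fun x : H => x ∈ ⨅ a, S (k a), D := sum_le_sum fun x _ => hD x
    _ = cd (⨅ a, S (k a)) * D := by
      rw [sum_const, nsmul_eq_mul, hcd]

end Pool.Agent.SGB.H39
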